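import Pool.Agent.L5helper88.KE.Upper

/-! The complete Kähler-Einstein metric does not always maximize the bottom of the spectrum among
the complete Kähler metrics with `Ric(ω) ≥ -ω`. -/

namespace Pool.Agent.Results.MP_164ed8_gt.NotMaximal

open Pool.Agent.L5helper88.KE Set
open scoped ComplexOrder

theorem hess_zero {p : Ix → ℂ} (hp : p ∈ X) (i j : Ix) :
    (ricci (met W0) p + met W0 p) i j = 0 := by
  have hd : ∀ p ∈ X, ContDiffAt ℝ ((⊤ : ℕ∞) : WithTop ℕ∞) (Wd W0) (v p) := fun p hp =>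
    contDiffAt_Wd contDiff_PP (v_mem_S hp) (mem_Rg_zero PP _)
  rw [ricci_add good_W0 hd hp]
  have h := hess_E contDiff_PP (ε := 0) hp (mem_Rg_zero PP (v p)) i j
  refine Eq.trans h ?_
  unfold hess
  simp [D_Ef contDiff_PP (mem_Rg_zero PP (v p)), DD_Ef contDiff_PP (mem_Rg_zero PP (v p))]

theorem isKE_W0 : IsKE X (met W0) := by
  intro p hp
  have h : ricci (met W0) p + met W0 p = 0 := by
    ext i j
    exact hess_zero hp i j
  exact eq_neg_of_add_eq_zero_left h

theorem mem_Kcal_W0 : met W0 ∈ Kcal X := by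
  refine ⟨isKahler_met good_W0, complete_met contDiff_PP Cond_zero, fun p hp => ?_⟩
  rw [isKE_W0 p hp, neg_add_cancel]
  exact Matrix.PosSemidef.zero

theorem bottom_W0 : bottom X (met W0) = 75 / 11 := by
  apply le_antisymm bottom_W0_le
  have h := bottom_Wf_ge contDiff_PP contDiff_mu le_rfl Cond_zero (d := Db)
    fun x _ => (Mf_PP x).ge
  have h2 : 2 * (75 / 22 + 0 * Db) = 75 / 11 := by ring
  rw [h2] at h
  exact h

theorem not_compact_X : ¬ IsCompact X := by
  intro h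
  have h1 : IsClopen X := ⟨h.isClosed, isOpen_X⟩
  have h2 : X = univ := h1.eq_univ ⟨0, zero_mem_X⟩
  rw [h2] at h
  exact noncompact_univ (Ix → ℂ) h

/-- There is a bounded domain `X` of `ℂ²⁰`, the product of two copies of the Hartogs domain
`{(z, w) ∈ ℂ⁹ × ℂ : |z_j| < 1, |w|² < ∏ (1 - |z_j|²)^{1/5}}`, with a complete Kähler-Einstein
metric `g₀`, `Ric(g₀) = -g₀`, such that `λ₀(X, g₀) = 75 / 11`, and a complete Kähler metric `g` on
`X` with `Ric(g) ≥ -g` and `λ₀(X, g) > λ₀(X, g₀)`. -/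
theorem result : IsOpen X ∧ IsConnected X ∧ ¬ IsCompact X ∧
    ∃ g₀ ∈ Kcal X, IsKE X g₀ ∧ bottom X g₀ = 75 / 11 ∧ ∃ g ∈ Kcal X, bottom X g₀ < bottom X g := by
  obtain ⟨ε, _, h1, h2⟩ := exists_perturbed
  refine ⟨isOpen_X, isConnected_X, not_compact_X, met W0, mem_Kcal_W0, isKE_W0, bottom_W0,
    met (Wf PP ε), h1, ?_⟩
  rw [bottom_W0]
  exact h2

end Pool.Agent.Results.MP_164ed8_gt.NotMaximal
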